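import Mathlib
import Pool.Agent.N178.HX.Parts
import Pool.Agent.N178.MU.Pad

/-!
# The injectivity of the Abel–Jacobi map over number fields in the predicted range of Hodge numbers

Let `K` be a number field, embedded into `ℂ`, and `X` an abelian variety over `K` such that the complex
abelian variety `X` (`AV`, up to isogeny) belongs to one of the following two classes.

(a) All simple factors of `X` are factors of an abelian variety `A` of dimension at most three (for
instance `X` is a power of `A`).

(b) There are finitely many CM types `T k`, divided into independent blocks, such that for each block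
all CM types of the CM fields in this block are conjugate, or the total dimension of the block is at
most three, or the block consists of all CM types of a Galois CM field of degree at most six; and
each simple factor of `X` is a factor of one of the abelian varieties with the CM types `T k`, or has
no complex multiplication and belongs to one of the classes in `Typ` below (of any dimension), where
an imaginary quadratic field which acts with two different multiplicities on the tangent space must
be the field of an elliptic curve of the first kind (fourfolds with such an action are excluded).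

Let `(X, p)` be a direct summand of the Chow motive of `X`, over `K`, with the Hodge numbers
`h^(s, t)` of `p^* H^(s+t)(X)`. For example, `(X, p)` can be the motive of a smooth projective variety
which is the image of `X`, or the image of a product of curves of positive genus such that the product
of their Jacobians is `X`.

The theorem: suppose that `h^(s, t) = 0` for `s ≤ i`, `t ≥ i + 2` (and, by symmetry, for `t ≤ i`,
`s ≥ i + 2`). Then the `p`-adic Abel–Jacobi map, for all primes `p`, is injective on the homologically
trivial cycles of dimension `i` in `(X, p)`, that is, on `CH(M)^0` for `M = (X, p, n)`,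
`n = dim X - i`. (By the theorem the base change to `ℂ` of a cycle in the kernel is zero, and the Chow
groups of `M` with rational coefficients inject into those of the base change to `ℂ`.) This is the
range in which injectivity is predicted also over `ℂ`. In particular, if the Hodge numbers `h^(s, t)`
of `M` with `|s - t| ≥ 2` are zero then the Abel–Jacobi map of `(X, p, n)` is injective for all `n`.

The same theorem holds for the complex Abel–Jacobi map, and cycles over any algebraically closed
subfield of `ℂ` (`ArithmeticAJ` in `Pool.Agent.N178.MU.PadDefs`).

The structures `ChowTheory` (`Pool.Agent.N178.BL.Defs`), `Projectors` (`Pool.Agent.N178.MU.Defs`) and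
`ArithmeticAJ` collect the known properties of the Chow groups of abelian varieties which are used: the
formal properties of correspondences; Kimura's theorem that homologically trivial endomorphisms of
the motive are nilpotent; the semisimplicity of the category of motives of abelian varieties modulo
homological equivalence (Jannsen, Lieberman); the algebraic classes are a system `Sys` (Lefschetz,
Markman); the algebraicity of the isomorphisms `H^n(Y, ℚ) ≅ H_n(Y, ℚ)` given by a polarization
(Lieberman); the projectors of Deninger and Murre; Künnemann's isomorphism `h_n(X) ≅ h^n(X)` up to a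
twist, and Beauville's theorem that `CH^p(h^n(X)) = 0` for `p ≤ 1` and `n > 2 p`; the functoriality of
the Abel–Jacobi map and its injectivity on `CH_0(h_1(Y))` (Mordell–Weil); and the specialization of
correspondences.

The proof. By the generalized Hodge conjecture for `X`
(`Pool.Agent.Results.MP_90e98f_ag.PowersAndCMFields`) and the semisimplicity, the part of weight `m`
of `p` is homologically equivalent to a sum of compositions `κ ∘ π_n ∘ Γ` of correspondences of the
degrees `-k` and `k` with the projector `π_n` to `h_n(Y)`, `m = n + 2 k`, for abelian varieties `Y`,
and for `n = 1` one may suppose by specialization that they are defined over the algebraic closure of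
`K`. They act as zero on the kernel of the Abel–Jacobi map in dimension `i`. Now the theorem follows
from the nilpotence.
-/

namespace Pool.Agent.Results.MP_386e47_ag.HodgeRange

open Module NumberField Pool.Agent.Y90 Pool.Agent.R915
open Pool.Agent.H204R3.CM (IsCMType)
open Pool.Agent.W547.KB (CMPair CMAV single)
open Pool.Agent.W547.LN (SameType)
open Pool.Agent.N830.HC (av)
open Pool.Agent.N178.BL (ChowTheory)
open Pool.Agent.N178.MU (Projectors ArithmeticAJ HodgeZero)

/-- The classes of simple abelian varieties: dimension at most three; or the endomorphism algebra is
an imaginary quadratic field of signature `(p, q)` with `p, q ≤ 3` (and trivial discriminant for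
`(3, 3)`); or Albert type I or II of relative dimension at most three; or dimension five and
endomorphism algebra `ℚ`; or Albert type I or II, any dimension, with the largest possible Hodge
group. -/
def Typ (Y : AV) : Prop :=
  finrank ℚ Y.H ≤ 6 ∨ QuadMult Y ∨ RealMult Y ∨ FiveDim Y ∨ FullHodge Y

/-- Each simple factor `Y` of `X` is a factor of an abelian variety with one of the CM types `T k`; or
it has no complex multiplication, belongs to one of the classes in `Typ`, and if `ℚ(√-d)` acts on `Y`
with two different multiplicities then `Y` is not a fourfold and the elliptic curve `E` with complex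
multiplication by this field is a factor of an abelian variety with one of the CM types `T k`. -/
def HasFactorsIn {K : Type} (T : K → CMPair) (X : AV) : Prop :=
  ∀ Y, IsFactor Y X → (∃ k, IsFactor Y (av (single (T k)))) ∨ (¬ HasCMult Y ∧ Typ Y ∧
    ∀ d : ℚ, Unbalanced Y d → finrank ℚ Y.H ≠ 8 ∧
      ∃ k E, IsFactor E (av (single (T k))) ∧ finrank ℚ E.H = 2 ∧ Unbalanced E d)

/-- All CM types of the CM fields in the block `B` are conjugate, simultaneously: for each family of
CM types `Ψ k` of the CM fields there is an automorphism of `ℂ` which takes `Ψ k` to the CM type
`T k`, for all `k` in `B`. -/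
def AllConjugate {K : Type} (T : K → CMPair) (B : Set K) : Prop :=
  ∀ Ψ : ∀ k, Set ((T k).E →+* ℂ), (∀ k, IsCMType (Ψ k)) →
    ∃ σ : ℂ ≃+* ℂ, ∀ k ∈ B, ∀ φ, φ ∈ Ψ k ↔ (σ : ℂ →+* ℂ).comp φ ∈ (T k).Φ

/-- The CM fields of the block `B` are subfields of the Galois CM field `L`, and all CM types of `L`
occur. -/
def AllTypes {K : Type} (T : K → CMPair) (B : Set K) (L : Type) [Field L] [NumberField L]
    [IsCMField L] : Prop :=
  IsGalois ℚ L ∧ (∀ k ∈ B, Nonempty ((T k).E →+* L)) ∧
    ∀ (Φ : Set (L →+* ℂ)) (hΦ : IsCMType Φ), ∃ k ∈ B, SameType ⟨L, Φ, hΦ⟩ (T k)

/-- The total dimension of the block is at most three. -/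
def DimAtMostThree {K : Type} (T : K → CMPair) (B : Set K) : Prop :=
  ∃ F : Finset K, (∀ k, k ∈ F ↔ k ∈ B) ∧ ∑ k ∈ F, finrank ℚ (T k).E ≤ 6

/-- The blocks `{k | b k = j}` are independent: automorphisms of `ℂ` can be prescribed separately on
the complex embeddings of the CM fields of the different blocks. (The composita of the Galois
closures of the fields of the different blocks are linearly disjoint over `ℚ`.) -/
def IsIndependent {K J : Type} (T : K → CMPair) (b : K → J) : Prop :=
  ∀ τ : J → (ℂ ≃+* ℂ), ∃ σ : ℂ ≃+* ℂ, ∀ k (φ : (T k).E →+* ℂ),
    (σ : ℂ →+* ℂ).comp φ = (τ (b k) : ℂ →+* ℂ).comp φ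

/-- The condition on the block `B`. -/
def IsGoodBlock {K : Type} (T : K → CMPair) (B : Set K) : Prop :=
  AllConjugate T B ∨ (∃ (L : Type) (_ : Field L) (_ : NumberField L) (_ : IsCMField L),
    AllTypes T B L ∧ finrank ℚ L ≤ 6) ∨ DimAtMostThree T B

/-- The classes (a) and (b) of abelian varieties. -/
def IsGood (X : AV) : Prop :=
  (∃ A : AV, finrank ℚ A.H ≤ 6 ∧ ∀ Y, IsFactor Y X → IsFactor Y A) ∨
    ∃ (K J : Type) (_ : Fintype K) (T : K → CMPair) (b : K → J), IsIndependent T b ∧
      (∀ j, IsGoodBlock T {k | b k = j}) ∧ HasFactorsIn T X

/-- **The Abel–Jacobi map is injective on the homologically trivial cycles of dimension `i` of the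
direct summand `(X, p)` of the Chow motive of the abelian variety `X` over a number field** if the
Hodge numbers `h^(s, t)` of `(X, p)` with `s ≤ i`, `t ≥ i + 2` (or conversely) are zero. -/
theorem result (C : ChowTheory) (K : Projectors C) (O : AV) (hO : finrank ℚ O.H = 0)
    (A : ArithmeticAJ K O) (X : AV) (hX : IsGood X) (hdef : A.Def X) (p : C.Co X X)
    (hp : C.IsMotive p) (i : ℤ)
    (hi : ∀ s t : ℕ, (s ≤ i ∧ i + 2 ≤ t) ∨ (t ≤ i ∧ i + 2 ≤ s) → HodgeZero p s t)
    (z : C.Co O X) (hz : A.Triv i z) (hpz : C.o p z = z) : z = 0 := by
  have hG : Pool.Agent.N178.HX.GHC C.alg X := by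
    rcases hX with ⟨A, hA, hX⟩ | ⟨K, J, _, T, b, hb, hj, hX⟩
    · exact Pool.Agent.N178.HX.pow3 Pool.Agent.N178.HX.t_MAINT Pool.Agent.N178.HX.t_COV
        Pool.Agent.N178.HX.t_POW A X hA hX C.alg
    · exact Pool.Agent.N178.HX.uncond' Pool.Agent.N178.HX.t_MAINT Pool.Agent.N178.HX.t_COV T b hb
        hj C.alg X hX
  exact Pool.Agent.N178.MU.padic hG A hO hdef hp hi hz hpz

end Pool.Agent.Results.MP_386e47_ag.HodgeRange
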