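import Pool.Agent.N64.AF.X3

/-!
# The growth of the kernels of the p-adic Abel-Jacobi maps on the powers of a variety

Let `K` be a number field, `p` a prime, and `X` a smooth projective variety over `K` with the sign
conjecture (the projector to the even cohomology is algebraic: known for curves, surfaces, abelian
varieties, complete intersections, and their products). Let `b = dim H^*(X)`, let `κ (n)` be the
dimension of the kernel of the `p`-adic étale Abel-Jacobi map on the homologically trivial cycles
of all codimensions of `X^n` (rational coefficients; a number or infinity), and `r (n)` the rank of the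
group of cycles on `X^n` modulo numerical equivalence. More generally `J(M) ⊆ CH(M)` is the kernel
of `AJ_p`, for a Chow motive `M`.

Theorem.
(1) `κ (n) / r (n)` converges, for `n → ∞`, to a natural number or infinity `N`. We have `N = 0` if
and only if `AJ_p` is injective on all powers of `X` (then on all direct factors of their motives).
(2) If `2 κ (n) < r (n)` for ONE `n ≥ 128 (m+1)² b^(2m+6)` then `AJ_p` is injective on `X^m`.
(3) If `N = k` is finite then all `κ (n)` are finite; all compositions `g ∘ f₂ ∘ f₁` are zero, where
`f₁, f₂` are homologically trivial correspondences between powers of `X` and `g` is a composition of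
`k` numerically trivial ones; in particular the ideal of homologically trivial correspondences
is nilpotent of index `k + 2` on all powers at once, and `X` has a finite-dimensional motive (Kimura).
(4) For each direct factor `P` of a power of `X` which is simple modulo numerical equivalence, with
`b(P) = dim H(P)` and `e(P) = dim End(P)` modulo numerical equivalence: `b(P) dim J(P) ≤ e(P) N`, and if
`J(P) ≠ 0` then `N ≥ b(P)` and `κ (n) ≥ dim Hom(P, X^n)` modulo numerical equivalence for all `n ≥ m b^(3m)`
(if `P` is a factor of `X^m`).

So either the Abel-Jacobi map is injective on all powers of `X`, or its kernel on `X^n` has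
asymptotically at least the size of the whole numerical Chow group of `X^n`; and already a kernel
of bounded relative size implies the nilpotence which Beilinson, Bloch, Murre and Kimura predict.
The case `k = 0` of (3) is the known fact that products of two homologically trivial correspondences
vanish if `AJ_p` is injective.

The setting: `C` is the category of Chow motives over `K` with correspondences of all codimensions,
rational coefficients, `T = h(X)`, `Hom(1, tp T n) = CH^*(X^n)`, `R` is the étale cohomology with
coefficients in an algebraic closure of `ℚ_p`. The properties `IsAJKernel` of the kernels are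
formal: `AJ_p` commutes with correspondences, which act on the target `H^1(K, H^{2j-1}(j))` through
their action on cohomology. The theorem holds over any field and for all Abel-Jacobi maps (also for
the complex one of Griffiths); over `ℂ` the limit is infinity for a K3 surface (Mumford).

Authors: helper64 (this result, plan), and, for the lemmas of the law used here, helper136, helper327,
helper199, helper767, helper8, helper364, helper216, helper73, helper833, helper140, helper494,
helper505, helper301, helper441, helper591, helper712, helper945, helper701, helper344, helper690,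
helper645, helper861.
-/

set_option autoImplicit false

open CategoryTheory MonoidalCategory Module Filter Topology
open Pool.Agent.Y112.SR Pool.Agent.Y112.KD Pool.Agent.N64.AF
open scoped ENNReal

namespace Pool.Agent.Results.MP_386e47_ag.KernelGrowthLaw

universe v u w

/-- The growth of the kernels `J` of the Abel-Jacobi maps on the powers of `T`. -/
theorem result {C : Type u} [Category.{v} C] [Preadditive C] [MonoidalCategory C]
    [MonoidalPreadditive C] [SymmetricCategory C] [RightRigidCategory C]
    [Linear ℚ C] [MonoidalLinear ℚ C] [IsIdempotentComplete C]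
    {K : Type w} [Field K] [IsAlgClosed K] [Algebra ℚ K] (R : SuperRealisation C K)
    (T : C) [ExactPairing T T] (h : IsPow ℚ R T)
    (J : ∀ Z : C, Submodule ℚ (𝟙_ C ⟶ Z)) (hJ : IsAJKernel R J) : ∃ N : ℕ∞,
    RatioTo ℚ T (fun n => dimE ℚ (J (tp T n))) N ∧
    (N = 0 ↔ ∀ n, J (tp T n) = ⊥) ∧
    (∀ m n : ℕ, 128 * (m + 1) ^ 2 * bt R T ^ (2 * m + 6) ≤ n →
      2 * dimE ℚ (J (tp T n)) < numRank ℚ (tp T n) → J (tp T m) = ⊥) ∧
    (∀ k : ℕ, N = k → (∀ n, Module.Finite ℚ (J (tp T n))) ∧
      (∀ (a b c d : ℕ) (f₁ : tp T a ⟶ tp T b) (f₂ : tp T b ⟶ tp T c) (g : tp T c ⟶ tp T d),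
        R.H.map f₁ = 0 → R.H.map f₂ = 0 → NumPow T k g → f₁ ≫ f₂ ≫ g = 0) ∧
      Pool.Agent.R905.IsKimuraFinite T) ∧
    ∀ (m : ℕ) (P : C) (i : P ⟶ tp T m) (p : tp T m ⟶ P), i ≫ p = 𝟙 P → NumSimple P →
      (bt R P : ℕ∞) * dimE ℚ (J P) ≤ nr ℚ (𝟙 P) (𝟙 P) * N ∧
      (J P ≠ ⊥ → (bt R P : ℕ∞) ≤ N ∧ ∀ n : ℕ, m * bt R T ^ (3 * m) ≤ n →
          ((nr ℚ (𝟙 P) (𝟙 (tp T n)) : ℕ) : ℕ∞) ≤ dimE ℚ (J (tp T n))) :=
  aj_law h J hJ

end Pool.Agent.Results.MP_386e47_ag.KernelGrowthLaw
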